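import Pool.Agent.Q163.Arc.Coloop
import Pool.Agent.Q163.Arc.Count

/-!
# The ratios of arc-complexity to size of gammoids are dense in the positive reals

By counting, some gammoids on `2m` elements have arc-complexity larger than `C m`, for every `C`;
adding coloops does not change the arc-complexity.

The definitions (`IsPath`, `IsRouting`, `IsStandardRep`, `arcCounts`, `arcC`) are in
`Pool.Agent.Q163.Arc.Defs`.
-/

set_option autoImplicit false

namespace Pool.Agent.Results.MP_1bde1f_co.DenseRatios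

open Set Q163.Arc

/-- `M` is a gammoid: for some finite digraph `(V, A)`, some placement `f` of the ground set in `V`
and some `T ⊆ V`, the independent sets are the sets of vertices of the ground set that admit a
routing to `T`, that is, `M = Γ(D, T, E)`. -/
def IsGammoid {α : Type*} (M : Matroid α) : Prop :=
  ∃ (V : Type) (_ : Finite V) (f : α → V) (hf : Set.InjOn f M.E) (A : Set (V × V)) (T : Set V),
    ∀ X : Set V, (M.map f hf).Indep X ↔ X ⊆ (M.map f hf).E ∧ ∃ R, IsRouting A X T R

/-- The set of the ratios of the arc-complexity to the number of elements, over all gammoids with a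
finite nonempty ground set. -/
def ratios : Set ℝ :=
  {x | ∃ (α : Type) (M : Matroid α), M.E.Finite ∧ M.E.Nonempty ∧ IsGammoid M ∧
    (arcCounts M).Nonempty ∧ x = (arcC M : ℝ) / (M.E.ncard : ℝ)}

lemma isGammoid_of_arcCounts {α : Type*} {M : Matroid α} (h : (arcCounts M).Nonempty) :
    IsGammoid M := by
  obtain ⟨_, V, hV, f, hf, A, T, hrep, -⟩ := h
  exact ⟨V, hV, f, hf, A, T, hrep.indep_iff⟩

/-- **The ratios `arcC(M)/|E|` of gammoids are dense in the positive reals**: every open interval
`(a, b)` with `0 < a < b` contains such a ratio. -/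
theorem result : ∀ a b : ℝ, 0 < a → a < b → ∃ x ∈ ratios, a < x ∧ x < b := by
  intro a b ha hab
  have hb : 0 < b := ha.trans hab
  have hd : 0 < 1 / a - 1 / b := sub_pos.2 (one_div_lt_one_div_of_lt ha hab)
  obtain ⟨C, hC⟩ := exists_nat_gt (max (2 * b) (1 / (1 / a - 1 / b)))
  have hC1 : 2 * b < C := (le_max_left _ _).trans_lt hC
  have hC2 : 1 / (1 / a - 1 / b) < C := (le_max_right _ _).trans_lt hC
  obtain ⟨m, N, hm, hN⟩ := exists_superlinear C
  set A₀ : ℕ := arcC (bipM N) with hA₀
  have hNr : (C : ℝ) * m < A₀ := by exact_mod_cast hN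
  have hm1 : (1 : ℝ) ≤ m := by exact_mod_cast hm
  have hC0 : (0 : ℝ) < C := (by positivity : (0 : ℝ) < 2 * b).trans hC1
  have hA0 : (0 : ℝ) < A₀ := lt_of_le_of_lt (by positivity) hNr
  set n : ℕ := ⌊(A₀ : ℝ) / b⌋₊ + 1 with hn
  have hn1 : (A₀ : ℝ) / b < n := by
    rw [hn]; push_cast
    exact Nat.lt_floor_add_one _
  have hn2 : (n : ℝ) < (A₀ : ℝ) / a := by
    have h1 : (n : ℝ) ≤ (A₀ : ℝ) / b + 1 := by
      rw [hn]; push_cast
      have := Nat.floor_le (a := (A₀ : ℝ) / b) (by positivity)
      linarith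
    have h2 : 1 < (A₀ : ℝ) * (1 / a - 1 / b) := by
      have h3 : (C : ℝ) < A₀ := by nlinarith
      have h4 : 1 < (C : ℝ) * (1 / a - 1 / b) := by
        rwa [div_lt_iff₀ hd] at hC2
      nlinarith
    have h5 : (A₀ : ℝ) * (1 / a - 1 / b) = A₀ / a - A₀ / b := by ring
    linarith
  have hn0 : (0 : ℝ) < n := (by positivity : (0 : ℝ) < (A₀ : ℝ) / b).trans hn1
  have hnm : 2 * m ≤ n := by
    have h1 : (2 * m : ℝ) < A₀ / b := by
      rw [lt_div_iff₀ hb]
      nlinarith
    have h2 : ((2 * m : ℕ) : ℝ) < n := by push_cast; linarith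
    exact_mod_cast h2.le
  have hfin : (addColoops (bipM N) (n - 2 * m)).E.Finite := Set.toFinite _
  have hE : (addColoops (bipM N) (n - 2 * m)).E = univ := by
    rw [addColoops_E, bipM_E, image_univ]
    exact range_inl_union_range_inr
  have hcard : (addColoops (bipM N) (n - 2 * m)).E.ncard = n := by
    rw [hE, ncard_univ]
    simp only [Nat.card_eq_fintype_card, Fintype.card_sum, Fintype.card_fin]
    omega
  have hne : (arcCounts (addColoops (bipM N) (n - 2 * m))).Nonempty := by
    obtain ⟨c, hc⟩ := bipM_arcCounts N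
    exact ⟨c, le_addColoops _ _ hc⟩
  have hval : arcC (addColoops (bipM N) (n - 2 * m)) = A₀ :=
    arcC_addColoops _ _ (bipM_arcCounts N)
  refine ⟨(A₀ : ℝ) / n, ⟨_, addColoops (bipM N) (n - 2 * m), hfin, ?_,
    isGammoid_of_arcCounts hne, hne, ?_⟩, ?_, ?_⟩
  · rw [hE]
    exact ⟨Sum.inl (Sum.inl ⟨0, hm⟩), trivial⟩
  · rw [hval, hcard]
  · rw [lt_div_iff₀ hn0]
    rw [lt_div_iff₀ ha] at hn2
    linarith
  · rw [div_lt_iff₀ hn0]
    rw [div_lt_iff₀ hb] at hn1
    linarith

end Pool.Agent.Results.MP_1bde1f_co.DenseRatios
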